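import Pool.Agent.WR2.StmtsC

set_option autoImplicit false

/-! # Squad WR2, row FCM (the final comparison) -/

namespace Pool.Agent.WR2.H88

open Pool.Agent.WIR
open scoped BigOperators ENNReal

/-- the weights -/
lemma wt_le (n L : ℕ) : (2 : ℝ) ^ n * (3 ^ L / 2 ^ Mz n L) ≤ 2 := by
  have h1 : Mz n L = n + Nat.log 2 (3 ^ L) := rfl
  have h2 : (3 : ℝ) ^ L < 2 ^ (Nat.log 2 (3 ^ L) + 1) := by
    have h3 := Nat.lt_pow_succ_log_self (b := 2) (by norm_num) (3 ^ L)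
    exact_mod_cast h3
  rw [h1, pow_add]
  have h4 : (2 : ℝ) ^ n * (3 ^ L / (2 ^ n * 2 ^ Nat.log 2 (3 ^ L))) =
      3 ^ L / 2 ^ Nat.log 2 (3 ^ L) := by
    field_simp
  rw [h4, div_le_iff₀ (by positivity)]
  rw [pow_succ] at h2
  linarith

/-- **Row FCM.** -/
theorem fcm (PRE : PreStmt) (CMO : CmoStmt) (_WRB : WrbStmt) : FcmStmt := by
  classical
  intro n t r a y ha hy
  obtain ⟨-, -, hcard, -⟩ := PRE
  obtain ⟨P, hP⟩ : ∃ P : Finset (Σ _ : ℕ, ℕ),
      P = (WS t).sigma (fun l1 => RS l1 (y l1) r (7 * (y l1 + 1))) := ⟨_, rfl⟩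
  obtain ⟨U, hU⟩ : ∃ U : ℕ → ℕ → ℝ,
      U = fun L l => ∑ m ∈ Pre t l a, (uT (Mz n L - t) (L - l) m : ℝ) := ⟨_, rfl⟩
  have hU0 : ∀ L l, 0 ≤ U L l := by
    intro L l
    rw [hU]
    exact Finset.sum_nonneg (fun m _ => Nat.cast_nonneg _)
  have hM : ∀ l1 ∈ WS t, ∀ l2, t + M2 l1 (y l1) l2 = Mz n (l1 + l2) := by
    intro l1 h1 l2
    have h2 := hy l1 h1
    have h3 : Nat.log 2 (3 ^ l1) ≤ Nat.log 2 (3 ^ (l1 + l2)) :=
      Nat.log_mono_right (Nat.pow_le_pow_right (by norm_num) (Nat.le_add_right _ _))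
    unfold M2 Mz
    omega
  have h1 : Tht t r a - AO t (fun l1 m => max 0 (wr r m - gf l1 (y l1) r m)) a ≤
      ∑ p ∈ P, (3 ^ (p.1 + p.2) / 2 ^ Mz n (p.1 + p.2) : ℝ) * U (p.1 + p.2) p.1 := by
    have e1 : Tht t r a - AO t (fun l1 m => max 0 (wr r m - gf l1 (y l1) r m)) a =
        ∑ l1 ∈ WS t, ((3 ^ l1 / 2 ^ t : ℝ) * ∑ m ∈ Pre t l1 a, wr r m -
          (3 ^ l1 / 2 ^ t : ℝ) * ∑ m ∈ Pre t l1 a, max 0 (wr r m - gf l1 (y l1) r m)) := by
      rw [Finset.sum_sub_distrib]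
      rfl
    have e2 : ∑ l1 ∈ WS t, ((3 ^ l1 / 2 ^ t : ℝ) * ∑ m ∈ Pre t l1 a, wr r m -
          (3 ^ l1 / 2 ^ t : ℝ) * ∑ m ∈ Pre t l1 a, max 0 (wr r m - gf l1 (y l1) r m)) ≤
        ∑ l1 ∈ WS t, (3 ^ l1 / 2 ^ t : ℝ) * ∑ m ∈ Pre t l1 a, gf l1 (y l1) r m := by
      apply Finset.sum_le_sum
      intro l1 _
      rw [← mul_sub, ← Finset.sum_sub_distrib]
      apply mul_le_mul_of_nonneg_left _ (by positivity)
      apply Finset.sum_le_sum
      intro m _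
      have := le_max_right (0 : ℝ) (wr r m - gf l1 (y l1) r m)
      linarith
    have e3 : ∑ l1 ∈ WS t, (3 ^ l1 / 2 ^ t : ℝ) * ∑ m ∈ Pre t l1 a, gf l1 (y l1) r m =
        ∑ l1 ∈ WS t, ∑ l2 ∈ RS l1 (y l1) r (7 * (y l1 + 1)),
          (3 ^ (l1 + l2) / 2 ^ Mz n (l1 + l2) : ℝ) * U (l1 + l2) l1 := by
      apply Finset.sum_congr rfl
      intro l1 hl1
      unfold gf
      rw [Finset.sum_comm, Finset.mul_sum]
      apply Finset.sum_congr rfl
      intro l2 _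
      rw [← Finset.mul_sum, ← mul_assoc]
      have h2 := hM l1 hl1 l2
      have h3 : Mz n (l1 + l2) - t = M2 l1 (y l1) l2 := by omega
      have h4 : l1 + l2 - l1 = l2 := by omega
      have h5 : U (l1 + l2) l1 = ∑ m ∈ Pre t l1 a, (uT (M2 l1 (y l1) l2) l2 m : ℝ) := by
        rw [hU]
        simp only
        rw [h3, h4]
      rw [h5, ← h2, pow_add, pow_add, div_mul_div_comm]
    rw [e1, hP, Finset.sum_sigma]
    exact le_trans e2 (le_of_eq e3)
  refine ⟨P.sup (fun p => p.1 + p.2) + 1, ?_⟩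
  have hmaps : ∀ p ∈ P, p.1 + p.2 ∈ Finset.range (P.sup (fun p => p.1 + p.2) + 1) := by
    intro p hp
    rw [Finset.mem_range]
    exact Nat.lt_succ_of_le (Finset.le_sup (f := fun p : (Σ _ : ℕ, ℕ) => p.1 + p.2) hp)
  have h2 : ∑ p ∈ P, (3 ^ (p.1 + p.2) / 2 ^ Mz n (p.1 + p.2) : ℝ) * U (p.1 + p.2) p.1 ≤
      ∑ L ∈ Finset.range (P.sup (fun p => p.1 + p.2) + 1),
        (3 ^ L / 2 ^ Mz n L : ℝ) * (uT (Mz n L) L a : ℝ) := by
    rw [← Finset.sum_fiberwise_of_maps_to hmaps]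
    apply Finset.sum_le_sum
    intro L _
    by_cases hE : (P.filter (fun p => p.1 + p.2 = L)) = ∅
    · rw [hE, Finset.sum_empty]
      positivity
    obtain ⟨p0, hp0⟩ := Finset.nonempty_iff_ne_empty.mpr hE
    rw [Finset.mem_filter, hP, Finset.mem_sigma] at hp0
    have h3 : t ≤ Mz n L := by
      have h4 := hM p0.1 hp0.1.1 p0.2
      rw [hp0.2] at h4
      omega
    have h5 : (uT (Mz n L) L a : ℝ) = ∑ l ∈ Finset.range (L + 1), U L l := by
      have h6 := CMO t (Mz n L - t) L (fun _ => 1) a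
      have h7 : t + (Mz n L - t) = Mz n L := by omega
      rw [h7] at h6
      have h8 : ∀ t' l' a', PS t' l' (fun _ => (1 : ℝ)) a' = (uT t' l' a' : ℝ) := by
        intro t' l' a'
        unfold PS
        rw [Finset.sum_const, hcard, nsmul_eq_mul, mul_one]
      rw [h8] at h6
      rw [h6, hU]
      apply Finset.sum_congr rfl
      intro l _
      unfold PS
      apply Finset.sum_congr rfl
      intro m _
      rw [← h8]
      rfl
    have h9 : ∑ p ∈ P.filter (fun p => p.1 + p.2 = L),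
        (3 ^ (p.1 + p.2) / 2 ^ Mz n (p.1 + p.2) : ℝ) * U (p.1 + p.2) p.1 =
        (3 ^ L / 2 ^ Mz n L : ℝ) * ∑ p ∈ P.filter (fun p => p.1 + p.2 = L), U L p.1 := by
      rw [Finset.mul_sum]
      apply Finset.sum_congr rfl
      intro p hp
      rw [(Finset.mem_filter.mp hp).2]
    rw [h9, h5]
    apply mul_le_mul_of_nonneg_left _ (by positivity)
    have hinj : Set.InjOn (fun p : (Σ _ : ℕ, ℕ) => p.1)
        ((P.filter (fun p => p.1 + p.2 = L) : Finset (Σ _ : ℕ, ℕ)) : Set (Σ _ : ℕ, ℕ)) := by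
      rintro ⟨a1, a2⟩ ha' ⟨b1, b2⟩ hb' hab
      have ha2 := (Finset.mem_filter.mp (Finset.mem_coe.mp ha')).2
      have hb2 := (Finset.mem_filter.mp (Finset.mem_coe.mp hb')).2
      simp only at ha2 hb2 hab
      subst hab
      have : a2 = b2 := by omega
      rw [this]
    rw [← Finset.sum_image (f := fun l => U L l) hinj]
    apply Finset.sum_le_sum_of_subset_of_nonneg
    · intro l hl
      rw [Finset.mem_image] at hl
      obtain ⟨p, hp, rfl⟩ := hl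
      have := (Finset.mem_filter.mp hp).2
      rw [Finset.mem_range]
      omega
    · intro l _ _
      exact hU0 L l
  have h3 : (2 : ℝ) ^ n * ∑ L ∈ Finset.range (P.sup (fun p => p.1 + p.2) + 1),
        (3 ^ L / 2 ^ Mz n L : ℝ) * (uT (Mz n L) L a : ℝ) ≤
      2 * ∑ l ∈ Finset.range (P.sup (fun p => p.1 + p.2) + 1), (uT (Mz n l) l a : ℝ) := by
    rw [Finset.mul_sum, Finset.mul_sum]
    apply Finset.sum_le_sum
    intro L _
    rw [← mul_assoc]
    exact mul_le_mul_of_nonneg_right (wt_le n L) (Nat.cast_nonneg _)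
  refine le_trans ?_ h3
  exact mul_le_mul_of_nonneg_left (le_trans h1 h2) (by positivity)

end Pool.Agent.WR2.H88
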